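import Pool.Agent.Q297.No2Main

/-!
A forward Brownian motion with an independence time and a backward Brownian time which is not a
two-sided Brownian motion.
-/

open MeasureTheory ProbabilityTheory Set Filter Topology
open scoped ENNReal NNReal

namespace Pool.Agent.Results.MP_274522_pr.NotTwoSided

variable {Ω : Type*} [MeasurableSpace Ω]

/-- forward Brownian motion: there are random times `R n → -∞` such that `X` seen from each `R n`
is a standard Brownian motion -/
def FBM (X : ℝ → Ω → ℝ) (P : Measure Ω) : Prop :=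
  ∃ R : ℕ → Ω → ℝ, (∀ n, Measurable (R n)) ∧ (∀ᵐ ω ∂P, Tendsto (fun n => R n ω) atTop atBot) ∧
    ∀ n, IsBrownianReal (fun (t : ℝ≥0) ω => X (R n ω + t) ω - X (R n ω) ω) P

/-- the processes seen from `T` forward and backward are independent -/
def IndepAt (X : ℝ → Ω → ℝ) (T : Ω → ℝ) (P : Measure Ω) : Prop :=
  IndepFun (fun ω (t : ℝ≥0) => X (T ω + t) ω - X (T ω) ω)
    (fun ω (t : ℝ≥0) => X (T ω - t) ω - X (T ω) ω) P

/-- two-sided Brownian motion -/
def TwoBM (X : ℝ → Ω → ℝ) (P : Measure Ω) : Prop :=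
  ∃ R : Ω → ℝ, Measurable R ∧ IsBrownianReal (fun (t : ℝ≥0) ω => X (R ω + t) ω - X (R ω) ω) P ∧
    IsBrownianReal (fun (t : ℝ≥0) ω => X (R ω - t) ω - X (R ω) ω) P ∧ IndepAt X R P

/-- **Main theorem.**  There are a continuous FBM `X` and random times `S`, `T` with (a) the two
sides of `X` seen from `T` independent and (b) `X` seen backward from `S` a Brownian motion, such
that no continuous process with the law of `X`, on any probability space, is a 2BM. -/
theorem result : ∃ (Ω : Type) (_ : MeasurableSpace Ω) (P : Measure Ω) (_ : IsProbabilityMeasure P)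
    (X : ℝ → Ω → ℝ), (∀ t, Measurable (X t)) ∧ (∀ ω, Continuous fun t => X t ω) ∧ FBM X P ∧
      (∃ S T : Ω → ℝ, Measurable S ∧ Measurable T ∧ IndepAt X T P ∧
        IsBrownianReal (fun (t : ℝ≥0) ω => X (S ω - t) ω - X (S ω) ω) P) ∧
      ∀ (Ω' : Type) (_ : MeasurableSpace Ω') (P' : Measure Ω') (X' : ℝ → Ω' → ℝ),
        (∀ t, Measurable (X' t)) → (∀ ω, Continuous fun t => X' t ω) →
        P'.map (fun ω t => X' t ω) = P.map (fun ω t => X t ω) → ¬ TwoBM X' P' := by
  obtain ⟨Ω, mΩ, P, hP, X, hm, hc, hf, ⟨R, hRm, -, hR⟩, ⟨T, hTm, hT⟩, hn⟩ := Q297.Win.main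
  refine ⟨Ω, mΩ, P, hP, X, hm, hc, hf, ⟨fun ω => -R 0 ω, T, (hRm 0).neg, hTm, hT, ?_⟩, hn⟩
  have h := hR 0
  refine ⟨h.toIsPreBrownianReal.congr fun t => ae_of_all _ fun ω => ?_, ?_⟩
  · show X (-(R 0 ω + t)) ω - X (-R 0 ω) ω = X (-R 0 ω - t) ω - X (-R 0 ω) ω
    rw [neg_add, sub_eq_add_neg (-R 0 ω)]
  · refine ae_of_all _ fun ω => ?_
    have := hc ω
    fun_prop

end Pool.Agent.Results.MP_274522_pr.NotTwoSided
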